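import Mathlib
import Pool.Agent.Lib.MP_b99895_an.Final

set_option autoImplicit false

open scoped ENNReal
open Pool.Agent.Lib.MP_b99895_an

namespace Pool.Agent.Results.MP_b99895_an.EndpointFails

/-- **Q2, negative answer.** For every `r > 2` and every `p` with `r' = r / (r - 1) < p < 2`, the
statement `S(p, r)` fails. -/
theorem result (r p : ℝ) [Fact (1 ≤ ENNReal.ofReal p)] [Fact (1 ≤ ENNReal.ofReal r)]
    (hr : 2 < r) (hp1 : r / (r - 1) < p) (hp2 : p < 2) :
    ¬ LatticeProperty (ENNReal.ofReal p) (ENNReal.ofReal r) r :=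
  endpoint hr hp1 hp2

end Pool.Agent.Results.MP_b99895_an.EndpointFails
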