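import Mathlib
import Pool.Agent.Lib.MP_b99895_an.Final

set_option autoImplicit false

open scoped ENNReal
open Pool.Agent.Lib.MP_b99895_an

namespace Pool.Agent.Results.MP_b99895_an.InteriorFails

/-- **Q1, negative answer.** For every `r > 2` and every `p` with `r' = r / (r - 1) < p < 2` there
is `q₀ < r` such that the statement `S(p, q)` fails for every `q` with `q₀ < q < r`. -/
theorem result (r p : ℝ) [Fact (1 ≤ ENNReal.ofReal p)]
    (hr : 2 < r) (hp1 : r / (r - 1) < p) (hp2 : p < 2) :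
    ∃ q₀ : ℝ, 2 ≤ q₀ ∧ q₀ < r ∧ ∀ (q : ℝ) [Fact (1 ≤ ENNReal.ofReal q)], q₀ < q → q < r →
      ¬ LatticeProperty (ENNReal.ofReal p) (ENNReal.ofReal q) r :=
  interior hr hp1 hp2

end Pool.Agent.Results.MP_b99895_an.InteriorFails
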